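import Pool.Agent.W346.CP.PB

set_option autoImplicit false

namespace Pool.Agent.W346.CP

open Pool.Agent.W845.CP

lemma mem_kids {k : ℕ → ℕ} {n x y : ℕ} : y ∈ kids k n x ↔ y / 2 ^ k n = x := by
  unfold kids
  rw [Finset.mem_Ico]
  have h2 : 0 < 2 ^ k n := by positivity
  constructor
  · rintro ⟨h3, h4⟩
    exact Nat.div_eq_of_lt_le h3 h4
  · rintro rfl
    exact ⟨Nat.div_mul_le_self _ _, by
      rw [add_mul, one_mul]
      exact Nat.lt_div_mul_add h2⟩

lemma div_half (y i : ℕ) (hi : i ≠ 0) : y / 2 / 2 ^ (i - 1) = y / 2 ^ i := by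
  rw [Nat.div_div_eq_div_mul]
  congr 1
  obtain ⟨j, rfl⟩ := Nat.exists_eq_succ_of_ne_zero hi
  rw [Nat.succ_sub_one, pow_succ, mul_comm]

lemma div_dbl (y i : ℕ) : (2 * y) / 2 ^ (i + 1) = y / 2 ^ i := by
  rw [pow_succ, mul_comm (2 ^ i) 2, Nat.mul_div_mul_left _ _ (by norm_num)]

lemma div_dbl1 (y i : ℕ) : (2 * y + 1) / 2 ^ (i + 1) = y / 2 ^ i := by
  rw [pow_succ, mul_comm (2 ^ i) 2, ← Nat.div_div_eq_div_mul]
  congr 1
  omega

/-- a sum only sees the nonzero terms -/
lemma sum_le_of {V : Type} [DecidableEq V] (S S' : Finset V) (f : V → ℝ) (hf : ∀ v, 0 ≤ f v)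
    (h : ∀ z ∈ S, f z ≠ 0 → z ∈ S') : ∑ z ∈ S, f z ≤ ∑ z ∈ S', f z := by
  classical
  rw [← Finset.sum_filter_ne_zero S]
  refine Finset.sum_le_sum_of_subset_of_nonneg ?_ fun v _ _ => hf v
  intro z hz
  rw [Finset.mem_filter] at hz
  exact h z hz.1 hz.2

/-- general weights on the tree below a hub -/
noncomputable def wg (k : ℕ → ℕ) (n x : ℕ) (g : ℕ → ℝ) : Vx → ℝ
  | .t n' i y => if n' = n ∧ i ≤ k n ∧ y / 2 ^ i = x then g i else 0
  | _ => 0

lemma wg_t (k : ℕ → ℕ) (n x : ℕ) (g : ℕ → ℝ) (n' i y : ℕ) : wg k n x g (.t n' i y) =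
    if n' = n ∧ i ≤ k n ∧ y / 2 ^ i = x then g i else 0 := rfl

lemma wt_eq (k : ℕ → ℕ) (n x : ℕ) : wt k n x = wg k n x (fun i => (1 / 19 : ℝ) ^ i) := by
  funext v
  rcases v with _ | _ | _ <;> rfl

lemma gt_eq (k : ℕ → ℕ) (n x : ℕ) : gt k n x = wg k n x (fun i => (2 / 19 : ℝ) ^ (k n - i)) := by
  funext v
  rcases v with _ | _ | _ <;> rfl

lemma wg_nonneg (k : ℕ → ℕ) (n x : ℕ) (g : ℕ → ℝ) (hg : ∀ i, 0 ≤ g i) (v : Vx) :
    0 ≤ wg k n x g v := by
  rcases v with _ | _ | _
  · exact le_rfl
  · rw [wg_t]
    split_ifs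
    · exact hg _
    · exact le_rfl
  · exact le_rfl

/-- upper bound for the drift of the additive functional at one vertex -/
noncomputable def bb (k : ℕ → ℕ) (n x : ℕ) (lam c0 cK : ℝ) (g : ℕ → ℝ) (v : Vx) : ℝ :=
  (if v = Vx.t n 0 x then c0 else 0) +
    ∑ y ∈ kids k n x, (if v = Vx.t n (k n) y then cK else 0) +
    ∑ y ∈ kids k n x, (if v = Vx.p n 0 y then lam * g (k n) else 0) +
    (if v = Vx.h n x 0 then lam * g 0 else 0)

lemma drift_bb (m k l : ℕ → ℕ) (hk : ∀ n, 1 ≤ k n) (n x : ℕ) (lam c0 cK : ℝ) (hlam : 0 ≤ lam)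
    (g : ℕ → ℝ) (hg : ∀ i, 0 ≤ g i) (h0 : -(g 0) + lam * (2 * g 1) ≤ c0)
    (hK : -(g (k n)) + lam * g (k n - 1) ≤ cK)
    (hmid : ∀ i, 1 ≤ i → i < k n → -(g i) + lam * (g (i - 1) + 2 * g (i + 1)) ≤ 0) (v : Vx) :
    -(wg k n x g v) + lam * ∑ z ∈ nbx m k l v, wg k n x g z ≤ bb k n x lam c0 cK g v := by
  have hw := wg_nonneg k n x g hg
  have hkn := hk n
  rcases v with ⟨n', y, i⟩ | ⟨n', i, y⟩ | ⟨n', j, y⟩
  · -- h
    have h1 : ∑ z ∈ nbx m k l (Vx.h n' y i), wg k n x g z ≤
        if (n' = n ∧ y = x ∧ i = 0) then g 0 else 0 := by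
      rw [nbx_h]
      by_cases h2 : i = 0
      · refine (sum_le_of _ {Vx.t n' 0 y} _ hw ?_).trans ?_
        · intro z hz hz0
          rw [Finset.mem_singleton]
          split_ifs at hz
          · rw [Finset.mem_union, Finset.mem_insert] at hz
            rcases hz with hz | hz | hz
            · obtain ⟨j, _, rfl⟩ := Finset.mem_image.1 hz
              exact absurd rfl hz0
            · exact hz
            · rcases n' with _ | n'
              · simp [upv] at hz
              · unfold upv at hz
                rw [Finset.mem_singleton] at hz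
                rw [hz] at hz0
                exact absurd rfl hz0
          · simp at hz
        · rw [Finset.sum_singleton]
          rw [wg_t, pow_zero, Nat.div_one]
          by_cases h3 : n' = n ∧ y = x
          · rw [if_pos ⟨h3.1, Nat.zero_le _, h3.2⟩, if_pos ⟨h3.1, h3.2, h2⟩]
          · rw [if_neg (fun h => h3 ⟨h.1, h.2.2⟩), if_neg (fun h => h3 ⟨h.1, h.2.1⟩)]
      · have hng : ¬ (n' = n ∧ y = x ∧ i = 0) := fun h => h2 h.2.2
        rw [if_neg hng]
        refine le_of_eq (Finset.sum_eq_zero fun z hz => ?_)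
        split_ifs at hz
        · rw [Finset.union_empty] at hz
          obtain ⟨j, _, rfl⟩ := Finset.mem_image.1 hz
          rfl
        · simp at hz
    have h2 : wg k n x g (Vx.h n' y i) = 0 := rfl
    have h3 : bb k n x lam c0 cK g (Vx.h n' y i) =
        if (n' = n ∧ y = x ∧ i = 0) then lam * g 0 else 0 := by
      unfold bb
      rw [if_neg (by simp)]
      simp only [reduceCtorEq, if_false, Finset.sum_const_zero, zero_add, Vx.h.injEq]
    rw [h2, h3]
    have h4 := mul_le_mul_of_nonneg_left h1 hlam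
    split_ifs at h4 ⊢ <;> linarith
  · -- t
    by_cases hP : n' = n ∧ y / 2 ^ i = x
    · obtain ⟨rfl, hx⟩ := hP
      by_cases hi : i ≤ k n'
      · have hv : wg k n' x g (Vx.t n' i y) = g i := by
          rw [wg_t, if_pos ⟨rfl, hi, hx⟩]
        have hup : i ≠ 0 → wg k n' x g (Vx.t n' (i - 1) (y / 2)) = g (i - 1) := by
          intro hi0
          rw [wg_t, if_pos ⟨rfl, by omega, by rw [div_half y i hi0]; exact hx⟩]
        have hd1 : i < k n' → wg k n' x g (Vx.t n' (i + 1) (2 * y)) = g (i + 1) := by
          intro hiK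
          rw [wg_t, if_pos ⟨rfl, by omega, by rw [div_dbl]; exact hx⟩]
        have hd2 : i < k n' → wg k n' x g (Vx.t n' (i + 1) (2 * y + 1)) = g (i + 1) := by
          intro hiK
          rw [wg_t, if_pos ⟨rfl, by omega, by rw [div_dbl1]; exact hx⟩]
        rw [nbx_t, if_pos hi, hv]
        rcases Nat.eq_zero_or_pos i with hi0 | hi0
        · subst hi0
          rw [pow_zero, Nat.div_one] at hx
          subst hx
          have hkn' : 0 < k n' := hkn
          rw [if_pos rfl, if_pos hkn']
          have h1 : ∑ z ∈ insert (Vx.h n' y 0) {Vx.t n' (0 + 1) (2 * y),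
              Vx.t n' (0 + 1) (2 * y + 1)}, wg k n' y g z = 2 * g 1 := by
            rw [Finset.sum_insert (by simp), Finset.sum_insert (by simp), Finset.sum_singleton,
              hd1 hkn, hd2 hkn]
            have : wg k n' y g (Vx.h n' y 0) = 0 := rfl
            rw [this]
            ring
          rw [h1]
          have h2 : bb k n' y lam c0 cK g (Vx.t n' 0 y) = c0 := by
            unfold bb
            rw [if_pos rfl, if_neg (by simp)]
            have h3 : ∀ y' ∈ kids k n' y, (if Vx.t n' 0 y = Vx.t n' (k n') y' then cK else 0) =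
                0 := by
              intro y' _
              rw [if_neg]
              intro h
              injection h with _ h4
              omega
            rw [Finset.sum_eq_zero h3]
            simp
          rw [h2]
          exact h0
        · rw [if_neg hi0.ne']
          have hne0 : Vx.t n' i y ≠ Vx.t n' 0 x := by
            intro h
            injection h with _ h4
            omega
          by_cases hiK : i < k n'
          · rw [if_pos hiK]
            have h1 : ∑ z ∈ insert (Vx.t n' (i - 1) (y / 2)) {Vx.t n' (i + 1) (2 * y),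
                Vx.t n' (i + 1) (2 * y + 1)}, wg k n' x g z = g (i - 1) + 2 * g (i + 1) := by
              rw [Finset.sum_insert, Finset.sum_insert (by simp), Finset.sum_singleton,
                hup hi0.ne', hd1 hiK, hd2 hiK]
              · ring
              · rw [Finset.mem_insert, Finset.mem_singleton]
                rintro (h | h) <;> (injection h with _ h4; omega)
            rw [h1]
            have h2 : bb k n' x lam c0 cK g (Vx.t n' i y) = 0 := by
              unfold bb
              rw [if_neg hne0, if_neg (by simp)]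
              have h3 : ∀ y' ∈ kids k n' x, (if Vx.t n' i y = Vx.t n' (k n') y' then cK else 0) =
                  0 := by
                intro y' _
                rw [if_neg]
                intro h
                injection h with _ h4
                omega
              rw [Finset.sum_eq_zero h3]
              simp
            rw [h2]
            exact hmid i hi0 hiK
          · have hiK' : i = k n' := by omega
            subst hiK'
            rw [if_neg hiK]
            have h1 : ∑ z ∈ insert (Vx.t n' (k n' - 1) (y / 2)) {Vx.p n' 0 y},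
                wg k n' x g z = g (k n' - 1) := by
              rw [Finset.sum_insert (by simp), Finset.sum_singleton, hup hi0.ne']
              have : wg k n' x g (Vx.p n' 0 y) = 0 := rfl
              rw [this, add_zero]
            rw [h1]
            have h2 : bb k n' x lam c0 cK g (Vx.t n' (k n') y) = cK := by
              unfold bb
              rw [if_neg hne0, if_neg (by simp)]
              have h3 : ∑ y' ∈ kids k n' x, (if Vx.t n' (k n') y = Vx.t n' (k n') y' then cK
                  else 0) = cK := by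
                have h4 : ∀ y' ∈ kids k n' x, (if Vx.t n' (k n') y = Vx.t n' (k n') y' then cK
                    else 0) = if y = y' then cK else 0 := by
                  intro y' _
                  refine if_congr ?_ rfl rfl
                  simp
                rw [Finset.sum_congr rfl h4, Finset.sum_ite_eq, if_pos (mem_kids.2 hx)]
              rw [h3]
              simp
            rw [h2]
            exact hK
      · have hv : wg k n' x g (Vx.t n' i y) = 0 := by
          rw [wg_t, if_neg (fun h => hi h.2.1)]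
        rw [nbx_t, if_neg hi, hv, Finset.sum_empty]
        have h2 : bb k n' x lam c0 cK g (Vx.t n' i y) = 0 := by
          unfold bb
          rw [if_neg (by intro h; injection h with _ h4; omega), if_neg (by simp)]
          have h3 : ∀ y' ∈ kids k n' x, (if Vx.t n' i y = Vx.t n' (k n') y' then cK else 0) =
              0 := by
            intro y' _
            rw [if_neg]
            intro h
            injection h with _ h4
            omega
          rw [Finset.sum_eq_zero h3]
          simp
        rw [h2]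
        simp
    · have hz : ∀ i' y', y' / 2 ^ i' = y / 2 ^ i → wg k n x g (Vx.t n' i' y') = 0 := by
        intro i' y' h
        rw [wg_t, if_neg]
        rintro ⟨h1, _, h3⟩
        exact hP ⟨h1, by rw [← h]; exact h3⟩
      have hsum : ∑ z ∈ nbx m k l (Vx.t n' i y), wg k n x g z = 0 := by
        refine Finset.sum_eq_zero fun z hzm => ?_
        rw [nbx_t] at hzm
        split_ifs at hzm with h1 h2 h3 h3
        · rw [Finset.mem_insert, Finset.mem_insert, Finset.mem_singleton] at hzm
          rcases hzm with rfl | rfl | rfl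
          · rfl
          · exact hz _ _ (by rw [div_dbl])
          · exact hz _ _ (by rw [div_dbl1])
        · rw [Finset.mem_insert, Finset.mem_singleton] at hzm
          rcases hzm with rfl | rfl <;> rfl
        · rw [Finset.mem_insert, Finset.mem_insert, Finset.mem_singleton] at hzm
          rcases hzm with rfl | rfl | rfl
          · exact hz _ _ (by rw [div_half y i h2])
          · exact hz _ _ (by rw [div_dbl])
          · exact hz _ _ (by rw [div_dbl1])
        · rw [Finset.mem_insert, Finset.mem_singleton] at hzm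
          rcases hzm with rfl | rfl
          · exact hz _ _ (by rw [div_half y i h2])
          · rfl
        · simp at hzm
      rw [hsum, hz i y rfl]
      have h2 : bb k n x lam c0 cK g (Vx.t n' i y) = 0 := by
        unfold bb
        rw [if_neg, if_neg (by simp)]
        · have h3 : ∀ y' ∈ kids k n x, (if Vx.t n' i y = Vx.t n (k n) y' then cK else 0) = 0 := by
            intro y' hy'
            rw [if_neg]
            intro h
            injection h with h4 h5 h6
            rw [mem_kids] at hy'
            exact hP ⟨h4, by rw [h5, h6]; exact hy'⟩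
          rw [Finset.sum_eq_zero h3]
          simp
        · intro h
          injection h with h4 h5 h6
          exact hP ⟨h4, by rw [h5, h6, pow_zero, Nat.div_one]⟩
      rw [h2]
      simp
  · -- p
    have h1 : ∑ z ∈ nbx m k l (Vx.p n' j y), wg k n x g z ≤
        if (n' = n ∧ j = 0 ∧ y ∈ kids k n x) then g (k n) else 0 := by
      rw [nbx_p]
      by_cases h2 : j = 0
      · refine (sum_le_of _ {Vx.t n' (k n') y} _ hw ?_).trans ?_
        · intro z hz hz0
          rw [Finset.mem_singleton]
          split_ifs at hz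
          · rw [Finset.mem_insert, Finset.mem_singleton] at hz
            rcases hz with hz | hz
            · exact hz
            · rw [hz] at hz0
              exact absurd rfl hz0
          · rw [Finset.mem_insert, Finset.mem_singleton] at hz
            rcases hz with hz | hz
            · exact hz
            · rw [hz] at hz0
              exact absurd rfl hz0
          · simp at hz
        · rw [Finset.sum_singleton]
          rw [wg_t]
          by_cases h3 : n' = n ∧ y ∈ kids k n x
          · obtain ⟨rfl, h4⟩ := h3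
            rw [if_pos ⟨rfl, le_rfl, mem_kids.1 h4⟩, if_pos ⟨rfl, h2, h4⟩]
          · rw [if_neg, if_neg (fun h => h3 ⟨h.1, h.2.2⟩)]
            rintro ⟨rfl, _, h4⟩
            exact h3 ⟨rfl, mem_kids.2 h4⟩
      · have hng : ¬ (n' = n ∧ j = 0 ∧ y ∈ kids k n x) := fun h => h2 h.2.1
        rw [if_neg hng]
        refine le_of_eq (Finset.sum_eq_zero fun z hz => ?_)
        split_ifs at hz
        · rw [Finset.mem_insert, Finset.mem_singleton] at hz
          rcases hz with rfl | rfl <;> rfl
        · rw [Finset.mem_insert, Finset.mem_singleton] at hz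
          rcases hz with rfl | rfl <;> rfl
        · simp at hz
    have h2 : wg k n x g (Vx.p n' j y) = 0 := rfl
    have h3 : bb k n x lam c0 cK g (Vx.p n' j y) =
        if (n' = n ∧ j = 0 ∧ y ∈ kids k n x) then lam * g (k n) else 0 := by
      unfold bb
      rw [if_neg (by simp), if_neg (by simp)]
      have h4 : ∀ y' ∈ kids k n x, (if Vx.p n' j y = Vx.t n (k n) y' then cK else 0) = 0 := by
        intro y' _
        rw [if_neg (by simp)]
      rw [Finset.sum_eq_zero h4]
      by_cases h5 : n' = n ∧ j = 0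
      · have h6 : ∀ y' ∈ kids k n x, (if Vx.p n' j y = Vx.p n 0 y' then lam * g (k n) else 0) =
            if y = y' then lam * g (k n) else 0 := by
          intro y' _
          refine if_congr ?_ rfl rfl
          rw [Vx.p.injEq]
          tauto
        rw [Finset.sum_congr rfl h6, Finset.sum_ite_eq]
        simp [h5]
      · have h6 : ∀ y' ∈ kids k n x, (if Vx.p n' j y = Vx.p n 0 y' then lam * g (k n) else 0) =
            0 := by
          intro y' _
          rw [if_neg]
          rw [Vx.p.injEq]
          tauto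
        rw [Finset.sum_eq_zero h6, if_neg (fun h => h5 ⟨h.1, h.2.1⟩)]
        simp
    rw [h2, h3]
    have h4 := mul_le_mul_of_nonneg_left h1 hlam
    split_ifs at h4 ⊢ <;> linarith

/-- number of infected first vertices of the paths below -/
def np0 (k : ℕ → ℕ) (n x : ℕ) (A : Finset Vx) : ℕ :=
  ((kids k n x).filter (fun y => Vx.p n 0 y ∈ A)).card

lemma sum_bb (k : ℕ → ℕ) (n x : ℕ) (lam c0 cK : ℝ) (g : ℕ → ℝ) (A : Finset Vx) :
    ∑ v ∈ A, bb k n x lam c0 cK g v = (if Vx.t n 0 x ∈ A then c0 else 0) +
      cK * nlf k n x A + lam * g (k n) * np0 k n x A +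
      (if Vx.h n x 0 ∈ A then lam * g 0 else 0) := by
  unfold bb
  rw [Finset.sum_add_distrib, Finset.sum_add_distrib, Finset.sum_add_distrib, Finset.sum_ite_eq',
    Finset.sum_ite_eq']
  have h1 : ∀ (F : ℕ → Vx) (c : ℝ), ∑ v ∈ A, ∑ y ∈ kids k n x, (if v = F y then c else 0) =
      c * ((kids k n x).filter (fun y => F y ∈ A)).card := by
    intro F c
    rw [Finset.sum_comm]
    have h2 : ∀ y ∈ kids k n x, ∑ v ∈ A, (if v = F y then c else 0) =
        if F y ∈ A then c else 0 := fun y _ => Finset.sum_ite_eq' A (F y) _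
    rw [Finset.sum_congr rfl h2, ← Finset.sum_filter, Finset.sum_const, nsmul_eq_mul, mul_comm]
  rw [h1 (fun y => Vx.t n (k n) y), h1 (fun y => Vx.p n 0 y)]
  rfl

lemma gen_wg (m k l : ℕ → ℕ) (hk : ∀ n, 1 ≤ k n) (n x : ℕ) (lam c0 cK : ℝ) (hlam : 0 ≤ lam)
    (g : ℕ → ℝ) (hg : ∀ i, 0 ≤ g i) (h0 : -(g 0) + lam * (2 * g 1) ≤ c0)
    (hK : -(g (k n)) + lam * g (k n - 1) ≤ cK)
    (hmid : ∀ i, 1 ≤ i → i < k n → -(g i) + lam * (g (i - 1) + 2 * g (i + 1)) ≤ 0)
    (A : Finset Vx) :
    gen (nbx m k l) lam (fun B => ∑ v ∈ B, wg k n x g v) A ≤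
      (if Vx.t n 0 x ∈ A then c0 else 0) +
      cK * nlf k n x A + lam * g (k n) * np0 k n x A +
      (if Vx.h n x 0 ∈ A then lam * g 0 else 0) := by
  rw [← sum_bb k n x lam c0 cK g A]
  refine (gen_additive_le (nbx m k l) lam hlam (wg k n x g) (wg_nonneg k n x g hg) A).trans ?_
  exact Finset.sum_le_sum fun v _ => drift_bb m k l hk n x lam c0 cK hlam g hg h0 hK hmid v

/-- the path part -/
lemma gen_O1 (hPB : St_PB) (m k l : ℕ → ℕ) (hm : ∀ n, 1 ≤ m n) (hl : ∀ n, 1 ≤ l n) (lam : ℝ)
    (h0 : 0 < lam) (h1 : lam ≤ 1 / 16) (n x : ℕ) (A : Finset Vx) :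
    gen (nbx m k l) lam (fun B => ∑ y ∈ kids k n x, O1 l lam n y B) A ≤
      -(np0 k n x A : ℝ) + 2 * lam * nlf k n x A + lam * oo (l n) lam * nch k n x A := by
  rw [gen_sum]
  have h2 : ∀ (F : ℕ → Vx) (c : ℝ), ∑ y ∈ kids k n x, (if F y ∈ A then c else 0) =
      c * ((kids k n x).filter (fun y => F y ∈ A)).card := by
    intro F c
    rw [← Finset.sum_filter, Finset.sum_const, nsmul_eq_mul, mul_comm]
  refine (Finset.sum_le_sum fun y _ => (hPB m k l hm hl lam h0 h1 n y A).2.1).trans ?_
  rw [Finset.sum_add_distrib, Finset.sum_add_distrib, Finset.sum_neg_distrib,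
    h2 (fun y => Vx.p n 0 y), h2 (fun y => Vx.t n (k n) y), h2 (fun y => Vx.h (n + 1) y 0)]
  unfold np0 nlf nch
  rw [one_mul]

lemma pre_ins_h (l : ℕ → ℕ) (n y : ℕ) (A : Finset Vx) (n' y' i : ℕ) :
    pre l n y (insert (Vx.h n' y' i) A) = pre l n y A := by
  ext j
  rw [mem_pre, mem_pre, Finset.mem_insert]
  simp

lemma pre_er_h (l : ℕ → ℕ) (n y : ℕ) (A : Finset Vx) (n' y' i : ℕ) :
    pre l n y (A.erase (Vx.h n' y' i)) = pre l n y A := by
  ext j
  rw [mem_pre, mem_pre, Finset.mem_erase]
  simp

lemma SS_congr (k l : ℕ → ℕ) (lam : ℝ) (n x : ℕ) (A B : Finset Vx)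
    (h1 : ∑ v ∈ B, wt k n x v = ∑ v ∈ A, wt k n x v) (h2 : ∀ n y, pre l n y B = pre l n y A) :
    SS k l lam n x B = SS k l lam n x A := by
  have h3 : ∀ n y, O1 l lam n y B = O1 l lam n y A := by
    intro n y
    unfold O1
    rw [h2]
  have h4 : ∀ n y, O2 l lam n y B = O2 l lam n y A := by
    intro n y
    unfold O2
    rw [h2]
  have h5 : SU l lam n x B = SU l lam n x A := by
    rcases n with _ | n
    · rfl
    · show lam * O2 l lam n x B = lam * O2 l lam n x A
      rw [h4]
  unfold SS
  rw [h1, h5]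
  congr 4
  exact Finset.sum_congr rfl fun y _ => h3 n y

lemma sum_wt_le (k : ℕ → ℕ) (n x : ℕ) (A : Finset Vx) : ∑ v ∈ A, wt k n x v ≤ 19 / 17 := by
  rw [wt_eq]
  have hw := wg_nonneg k n x (fun i => (1 / 19 : ℝ) ^ i) (fun i => by positivity)
  set S' : Finset Vx := ((Finset.range (k n + 1)).sigma
    (fun i => Finset.Ico (x * 2 ^ i) ((x + 1) * 2 ^ i))).image (fun p => Vx.t n p.1 p.2) with hS'
  refine (sum_le_of A S' _ hw ?_).trans ?_
  · intro z _ hz
    rcases z with ⟨n', y, i⟩ | ⟨n', i, y⟩ | ⟨n', j, y⟩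
    · exact absurd rfl hz
    · rw [wg_t] at hz
      have h1 : n' = n ∧ i ≤ k n ∧ y / 2 ^ i = x := by
        by_contra h
        rw [if_neg h] at hz
        exact hz rfl
      obtain ⟨rfl, h2, h3⟩ := h1
      rw [hS', Finset.mem_image]
      refine ⟨⟨i, y⟩, ?_, rfl⟩
      rw [Finset.mem_sigma]
      refine ⟨Finset.mem_range.2 (Nat.lt_succ_of_le h2), ?_⟩
      have h4 : 0 < 2 ^ i := by positivity
      rw [Finset.mem_Ico, ← h3]
      refine ⟨Nat.div_mul_le_self _ _, ?_⟩
      rw [add_mul, one_mul]
      exact Nat.lt_div_mul_add h4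
    · exact absurd rfl hz
  · rw [hS', Finset.sum_image, Finset.sum_sigma]
    · have h1 : ∀ i ∈ Finset.range (k n + 1), ∑ y ∈ Finset.Ico (x * 2 ^ i) ((x + 1) * 2 ^ i),
          wg k n x (fun i => (1 / 19 : ℝ) ^ i) (Vx.t n i y) ≤ (2 / 19 : ℝ) ^ i := by
        intro i _
        have h2 : ∀ y ∈ Finset.Ico (x * 2 ^ i) ((x + 1) * 2 ^ i),
            wg k n x (fun i => (1 / 19 : ℝ) ^ i) (Vx.t n i y) ≤ (1 / 19 : ℝ) ^ i := by
          intro y _
          rw [wg_t]
          split_ifs
          · exact le_rfl
          · positivity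
        refine (Finset.sum_le_sum h2).trans ?_
        rw [Finset.sum_const, Nat.card_Ico, nsmul_eq_mul]
        have h3 : (x + 1) * 2 ^ i - x * 2 ^ i = 2 ^ i := by
          rw [add_mul, one_mul, Nat.add_sub_cancel_left]
        rw [h3]
        push_cast
        rw [← mul_pow]
        norm_num
      refine (Finset.sum_le_sum h1).trans ?_
      rw [geom_sum_eq (by norm_num)]
      rw [div_le_iff_of_neg (by norm_num)]
      have : (0 : ℝ) ≤ (2 / 19) ^ (k n + 1) := by positivity
      norm_num
    · rintro ⟨i, y⟩ _ ⟨i', y'⟩ _ h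
      simp only [Vx.t.injEq, true_and] at h
      obtain ⟨h1, h2⟩ := h
      subst h1
      subst h2
      rfl

lemma card_ins (A s : Finset Vx) (a : Vx) :
    ((A ∩ insert a s).card : ℝ) ≤ (if a ∈ A then 1 else 0) + (A ∩ s).card := by
  split_ifs with h
  · rw [Finset.inter_insert_of_mem h]
    have h1 := Finset.card_insert_le a (A ∩ s)
    have h2 : (((insert a (A ∩ s)).card : ℕ) : ℝ) ≤ ((A ∩ s).card + 1 : ℕ) := by
      exact_mod_cast h1
    push_cast at h2
    linarith
  · rw [Finset.inter_insert_of_notMem h]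
    simp

theorem conn1 (hP : St_PATH) (hPB : St_PB) : St_CONN1 := by
  intro m k l hm hk hl lam h0 h1 n x A
  have h16 : lam ≤ 1 / 16 := by linarith
  have hkn := hk n
  have hoo : ∀ n, 0 < oo (l n) lam := fun n => (hP lam h0 h16 (l n) (hl n)).2.2.2.1
  have hO1 := fun y => (hPB m k l hm hl lam h0 h16 n y A).1
  have hwt : 0 ≤ ∑ v ∈ A, wt k n x v := by
    rw [wt_eq]
    exact Finset.sum_nonneg fun v _ => wg_nonneg k n x _ (fun i => by positivity) v
  have hOs : 0 ≤ ∑ y ∈ kids k n x, O1 l lam n y A := Finset.sum_nonneg fun y _ => (hO1 y).1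
  have hOs2 : ∑ y ∈ kids k n x, O1 l lam n y A ≤ 2 ^ k n * (15 / 7) := by
    refine (Finset.sum_le_sum fun y _ => (hO1 y).2.1).trans ?_
    rw [Finset.sum_const, nsmul_eq_mul]
    have h3 : (kids k n x).card = 2 ^ k n := by
      unfold kids
      rw [Nat.card_Ico, add_mul, one_mul, Nat.add_sub_cancel_left]
    rw [h3]
    push_cast
    exact le_rfl
  have hpow : (0 : ℝ) < (1 / 19) ^ k n := by positivity
  have hSU : 0 ≤ SU l lam n x A ∧ SU l lam n x A ≤ lam * (15 / 7) := by
    rcases n with _ | n
    · exact ⟨le_rfl, by positivity⟩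
    · have h2 := (hPB m k l hm hl lam h0 h16 n x A).1.2.2
      exact ⟨mul_nonneg h0.le h2.1, mul_le_mul_of_nonneg_left h2.2 h0.le⟩
  refine ⟨?_, ?_, ?_, ?_, ?_⟩
  · unfold SS
    have := hSU.1
    positivity
  · unfold SS
    have h2 := sum_wt_le k n x A
    have h3 : (1 / 19 : ℝ) ^ k n * ∑ y ∈ kids k n x, O1 l lam n y A ≤ 2 / 19 * (15 / 7) := by
      calc (1 / 19 : ℝ) ^ k n * ∑ y ∈ kids k n x, O1 l lam n y A
          ≤ (1 / 19 : ℝ) ^ k n * (2 ^ k n * (15 / 7)) := mul_le_mul_of_nonneg_left hOs2 hpow.le
        _ = (2 / 19 : ℝ) ^ k n * (15 / 7) := by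
            rw [← mul_assoc, ← mul_pow]
            norm_num
        _ ≤ 2 / 19 * (15 / 7) := by
            refine mul_le_mul_of_nonneg_right ?_ (by norm_num)
            exact pow_le_of_le_one (by norm_num) (by norm_num) (by omega)
    have h4 : lam * (1 / 19 : ℝ) ^ k n * ∑ y ∈ kids k n x, O1 l lam n y A ≤
        1 / 20 * (2 / 19 * (15 / 7)) := by
      rw [mul_assoc]
      exact mul_le_mul h1 h3 (by positivity) (by norm_num)
    have h5 : 2 * lam * (∑ v ∈ A, wt k n x v +
        lam * (1 / 19 : ℝ) ^ k n * ∑ y ∈ kids k n x, O1 l lam n y A) ≤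
        2 * (1 / 20) * (19 / 17 + 1 / 20 * (2 / 19 * (15 / 7))) := by
      refine mul_le_mul (by linarith) (by linarith) (by positivity) (by norm_num)
    have h6 := hSU.2
    have h7 : lam * (15 / 7) ≤ 1 / 20 * (15 / 7) := mul_le_mul_of_nonneg_right h1 (by norm_num)
    norm_num at h5 h7 ⊢
    linarith
  · unfold EE
    have h2 : 0 ≤ EU k l lam n x A := by
      rcases n with _ | n
      · exact le_rfl
      · show 0 ≤ if Vx.t n (k n) x ∈ A then lam ^ 2 * oo (l n) lam else 0
        have := hoo n
        split_ifs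
        · positivity
        · exact le_rfl
    have h3 := hoo n
    positivity
  · intro n' y i
    refine ⟨SS_congr k l lam n x _ _ ?_ fun n y => pre_ins_h l n y A _ _ _,
      SS_congr k l lam n x _ _ ?_ fun n y => pre_er_h l n y A _ _ _⟩
    · exact Finset.sum_insert_zero rfl
    · exact Finset.sum_erase _ rfl
  · have h2 := gen_wg m k l hk n x lam (-1 + lam * (2 / 19)) ((1 / 19 : ℝ) ^ k n * (-1 + 19 * lam))
      h0.le (fun i => (1 / 19 : ℝ) ^ i) (fun i => by positivity) (by norm_num) (by
        obtain ⟨j, hj⟩ : ∃ j, k n = j + 1 := ⟨k n - 1, by omega⟩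
        rw [hj, Nat.add_sub_cancel, pow_succ]
        have : (0 : ℝ) ≤ (1 / 19) ^ j := by positivity
        nlinarith) (by
        intro i hi1 hi2
        obtain ⟨j, rfl⟩ : ∃ j, i = j + 1 := ⟨i - 1, by omega⟩
        rw [Nat.add_sub_cancel, pow_succ, pow_succ, pow_succ]
        have : (0 : ℝ) ≤ (1 / 19) ^ j := by positivity
        nlinarith) A
    have h3 := gen_O1 hPB m k l hm hl lam h0 h16 n x A
    have hSS : SS k l lam n x = fun B => (2 * lam *
        ((∑ v ∈ B, wg k n x (fun i => (1 / 19 : ℝ) ^ i) v) +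
          (lam * (1 / 19 : ℝ) ^ k n) * (∑ y ∈ kids k n x, O1 l lam n y B))) + SU l lam n x B := by
      funext B
      unfold SS
      rw [wt_eq]
    have hg : gen (nbx m k l) lam (SS k l lam n x) A =
        2 * lam * (gen (nbx m k l) lam (fun B => ∑ v ∈ B, wg k n x (fun i => (1 / 19 : ℝ) ^ i) v) A +
          (lam * (1 / 19 : ℝ) ^ k n) *
            gen (nbx m k l) lam (fun B => ∑ y ∈ kids k n x, O1 l lam n y B) A) +
          gen (nbx m k l) lam (SU l lam n x) A := by
      rw [hSS, gen_add, gen_smul, gen_add, gen_smul]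
    rw [hg]
    have h4 := mul_le_mul_of_nonneg_left h3 (mul_pos h0 hpow).le
    have hnl : (0 : ℝ) ≤ nlf k n x A := Nat.cast_nonneg _
    -- the sum of tree and path parts
    have h5 : gen (nbx m k l) lam (fun B => ∑ v ∈ B, wg k n x (fun i => (1 / 19 : ℝ) ^ i) v) A +
          (lam * (1 / 19 : ℝ) ^ k n) *
            gen (nbx m k l) lam (fun B => ∑ y ∈ kids k n x, O1 l lam n y B) A ≤
        (if Vx.t n 0 x ∈ A then -1 + lam * (2 / 19) else 0) +
          (if Vx.h n x 0 ∈ A then lam else 0) +
          lam ^ 2 * (1 / 19 : ℝ) ^ k n * oo (l n) lam * nch k n x A := by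
      have h6 : (1 / 19 : ℝ) ^ k n * (nlf k n x A : ℝ) * (-1 + 19 * lam + 2 * lam ^ 2) ≤ 0 := by
        refine mul_nonpos_of_nonneg_of_nonpos (by positivity) ?_
        nlinarith
      simp only [pow_zero, mul_one] at h2
      nlinarith
    have h6 := mul_le_mul_of_nonneg_left h5 (by positivity : 0 ≤ 2 * lam)
    have h7 : 2 * lam * (if Vx.t n 0 x ∈ A then -1 + lam * (2 / 19) else 0) ≤
        -(lam * (if Vx.t n 0 x ∈ A then 1 else 0)) := by
      split_ifs
      · nlinarith
      · simp
    have h8 : 2 * lam * (if Vx.h n x 0 ∈ A then lam else 0) =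
        (if Vx.h n x 0 ∈ A then 2 * lam ^ 2 else 0) := by
      split_ifs
      · ring
      · ring
    -- the path above
    have h9 : gen (nbx m k l) lam (SU l lam n x) A ≤ -(lam * (A ∩ upv l n x).card) +
        (if Vx.h n x 0 ∈ A then 2 * lam ^ 2 else 0) + EU k l lam n x A := by
      rcases n with _ | n
      · have h10 : gen (nbx m k l) lam (SU l lam 0 x) A = 0 := by
          unfold gen
          have : ∀ B, SU l lam 0 x B = 0 := fun B => rfl
          simp [this]
        rw [h10]
        have h11 : upv l 0 x = ∅ := rfl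
        have h12 : EU k l lam 0 x A = 0 := rfl
        rw [h11, h12]
        simp only [Finset.inter_empty, Finset.card_empty, Nat.cast_zero, mul_zero, neg_zero,
          zero_add, add_zero]
        split_ifs
        · positivity
        · exact le_rfl
      · have h10 : SU l lam (n + 1) x = fun B => lam * O2 l lam n x B := rfl
        rw [h10, gen_smul]
        have h11 := (hPB m k l hm hl lam h0 h16 n x A).2.2.1
        have h12 := mul_le_mul_of_nonneg_left h11 h0.le
        have h13 : upv l (n + 1) x = insert (Vx.p n (l n - 1) x) ∅ := rfl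
        have h14 := card_ins A ∅ (Vx.p n (l n - 1) x)
        rw [← h13, Finset.inter_empty, Finset.card_empty, Nat.cast_zero, add_zero] at h14
        have h15 := mul_le_mul_of_nonneg_left h14 h0.le
        have h16 : EU k l lam (n + 1) x A =
            if Vx.t n (k n) x ∈ A then lam ^ 2 * oo (l n) lam else 0 := rfl
        rw [h16]
        have h17 : lam * (if Vx.t n (k n) x ∈ A then lam * oo (l n) lam else 0) =
            if Vx.t n (k n) x ∈ A then lam ^ 2 * oo (l n) lam else 0 := by
          split_ifs <;> ring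
        have h18 : lam * (if Vx.h (n + 1) x 0 ∈ A then 2 * lam else 0) =
            if Vx.h (n + 1) x 0 ∈ A then 2 * lam ^ 2 else 0 := by
          split_ifs <;> ring
        rw [mul_add, mul_add, h17, h18] at h12
        linarith
    have h10 : ((A ∩ Ext l n x).card : ℝ) ≤ (if Vx.t n 0 x ∈ A then 1 else 0) +
        (A ∩ upv l n x).card := card_ins A (upv l n x) (Vx.t n 0 x)
    have h11 := mul_le_mul_of_nonneg_left h10 h0.le
    have h12 : (if Vx.h n x 0 ∈ A then 4 * lam ^ 2 else 0) =
        (if Vx.h n x 0 ∈ A then 2 * lam ^ 2 else 0) +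
          (if Vx.h n x 0 ∈ A then 2 * lam ^ 2 else 0) := by
      split_ifs <;> ring
    rw [h12]
    unfold EE
    nlinarith

end Pool.Agent.W346.CP
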