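import Pool.Agent.W346.CP.Pull

set_option autoImplicit false

namespace Pool.Agent.W346.CP

open Pool.Agent.W845.CP

/-- the path in the graph -/
def ph (n y : ℕ) (j : ℕ) : Vx := Vx.p n j y

lemma pre_eq (l : ℕ → ℕ) (n y : ℕ) (A : Finset Vx) :
    pre l n y A = pull (Finset.range (l n)) (ph n y) A := rfl

lemma mem_pre {l : ℕ → ℕ} {n y : ℕ} {A : Finset Vx} {j : ℕ} :
    j ∈ pre l n y A ↔ j < l n ∧ Vx.p n j y ∈ A := by
  unfold pre
  rw [Finset.mem_filter, Finset.mem_range]

lemma pre_sub (l : ℕ → ℕ) (n y : ℕ) (A : Finset Vx) : pre l n y A ⊆ Finset.range (l n) :=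
  Finset.filter_subset _ _

lemma mem_pnb' {l j i : ℕ} : i ∈ pnb l j ↔ (j ≠ 0 ∧ i = j - 1) ∨ (j + 1 < l ∧ i = j + 1) := by
  unfold pnb
  rw [Finset.mem_union]
  constructor
  · rintro (h | h)
    · split_ifs at h with h1
      · simp at h
      · exact Or.inl ⟨h1, by simpa using h⟩
    · split_ifs at h with h1
      · exact Or.inr ⟨h1, by simpa using h⟩
      · simp at h
  · rintro (⟨h1, h2⟩ | ⟨h1, h2⟩)
    · left
      rw [if_neg h1]
      simpa using h2
    · right
      rw [if_pos h1]
      simpa using h2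

lemma nbx_h (m k l : ℕ → ℕ) (n y i : ℕ) : nbx m k l (.h n y i) =
    if i < m n then ((Finset.range (m n)).erase i).image (Vx.h n y) ∪
      (if i = 0 then insert (Vx.t n 0 y) (upv l n y) else ∅) else ∅ := rfl

lemma nbx_t (m k l : ℕ → ℕ) (n i y : ℕ) : nbx m k l (.t n i y) =
    if i ≤ k n then insert (if i = 0 then Vx.h n y 0 else Vx.t n (i - 1) (y / 2))
      (if i < k n then {Vx.t n (i + 1) (2 * y), Vx.t n (i + 1) (2 * y + 1)} else {Vx.p n 0 y})
    else ∅ := rfl

lemma nbx_p (m k l : ℕ → ℕ) (n j y : ℕ) : nbx m k l (.p n j y) =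
    if j < l n then
      {(if j = 0 then Vx.t n (k n) y else Vx.p n (j - 1) y),
        (if j + 1 < l n then Vx.p n (j + 1) y else Vx.h (n + 1) y 0)}
    else ∅ := rfl

lemma p_mem_p (m k l : ℕ → ℕ) (n y i n' j y' : ℕ) :
    Vx.p n i y ∈ nbx m k l (Vx.p n' j y') ↔ j < l n' ∧ n = n' ∧ y = y' ∧
      ((j ≠ 0 ∧ i = j - 1) ∨ (j + 1 < l n' ∧ i = j + 1)) := by
  rw [nbx_p]
  by_cases h1 : j < l n'
  · rw [if_pos h1, Finset.mem_insert, Finset.mem_singleton]
    by_cases h2 : j = 0
    · by_cases h3 : j + 1 < l n'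
      · rw [if_pos h2, if_pos h3]
        simp only [reduceCtorEq, Vx.p.injEq, false_or]
        omega
      · rw [if_pos h2, if_neg h3]
        simp only [reduceCtorEq, false_or, false_iff]
        omega
    · by_cases h3 : j + 1 < l n'
      · rw [if_neg h2, if_pos h3]
        simp only [Vx.p.injEq]
        omega
      · rw [if_neg h2, if_neg h3]
        simp only [reduceCtorEq, Vx.p.injEq, or_false]
        omega
  · rw [if_neg h1]
    simp only [Finset.notMem_empty, false_iff]
    omega

lemma p_mem_t (m k l : ℕ → ℕ) (n y i n' j y' : ℕ) :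
    Vx.p n i y ∈ nbx m k l (Vx.t n' j y') ↔ n = n' ∧ y = y' ∧ j = k n' ∧ i = 0 := by
  rw [nbx_t]
  by_cases h1 : j ≤ k n'
  · rw [if_pos h1, Finset.mem_insert]
    have h4 : Vx.p n i y ≠ (if j = 0 then Vx.h n' y' 0 else Vx.t n' (j - 1) (y' / 2)) := by
      split_ifs <;> simp
    by_cases h3 : j < k n'
    · rw [if_pos h3, Finset.mem_insert, Finset.mem_singleton]
      simp only [h4, reduceCtorEq, false_or, false_iff]
      omega
    · rw [if_neg h3, Finset.mem_singleton]
      simp only [h4, Vx.p.injEq, false_or]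
      omega
  · rw [if_neg h1]
    simp only [Finset.notMem_empty, false_iff]
    omega

lemma p_mem_h (m k l : ℕ → ℕ) (hm : ∀ n, 1 ≤ m n) (n y i n' y' i' : ℕ) :
    Vx.p n i y ∈ nbx m k l (Vx.h n' y' i') ↔ n' = n + 1 ∧ y = y' ∧ i' = 0 ∧ i = l n - 1 := by
  rw [nbx_h]
  have hmn := hm n'
  have h5 : Vx.p n i y ∉ ((Finset.range (m n')).erase i').image (Vx.h n' y') := by
    rw [Finset.mem_image]
    rintro ⟨j, _, h⟩
    cases h
  by_cases h2 : i' = 0
  · subst h2
    rw [if_pos (by omega), if_pos rfl, Finset.mem_union, Finset.mem_insert]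
    simp only [h5, reduceCtorEq, false_or]
    rcases n' with _ | n'
    · simp [upv]
    · unfold upv
      rw [Finset.mem_singleton]
      simp only [Vx.p.injEq]
      constructor
      · rintro ⟨rfl, h3, h4⟩
        exact ⟨rfl, h4, trivial, h3⟩
      · rintro ⟨h3, h4, _, h6⟩
        have h7 : n = n' := by omega
        subst h7
        exact ⟨rfl, h6, h4⟩
  · by_cases h1 : i' < m n'
    · rw [if_pos h1, if_neg h2, Finset.union_empty]
      simp only [h5, false_iff]
      tauto
    · rw [if_neg h1]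
      simp only [Finset.notMem_empty, false_iff]
      tauto

/-- the generator on functionals of one path -/
theorem gen_pre (m k l : ℕ → ℕ) (hm : ∀ n, 1 ≤ m n) (hl : ∀ n, 1 ≤ l n) (lam : ℝ) (n y : ℕ)
    (nb : Vx → Finset Vx)
    (hnb : ∀ x j, j < l n → (Vx.p n j y ∈ nb x ↔ Vx.p n j y ∈ nbx m k l x))
    (f : Finset ℕ → ℝ) (A : Finset Vx) :
    gen nb lam (fun B => f (pre l n y B)) A = gen (pnb (l n)) lam f (pre l n y A) +
      lam * ((if Vx.t n (k n) y ∈ A then f (insert 0 (pre l n y A)) - f (pre l n y A) else 0) +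
        (if Vx.h (n + 1) y 0 ∈ A then
          f (insert (l n - 1) (pre l n y A)) - f (pre l n y A) else 0)) := by
  have hln := hl n
  have h1 : (fun B => f (pre l n y B)) = fun B => f (pull (Finset.range (l n)) (ph n y) B) := rfl
  have hpull : ∀ x, pull (Finset.range (l n)) (ph n y) (nb x) =
      pull (Finset.range (l n)) (ph n y) (nbx m k l x) := by
    intro x
    ext j
    rw [mem_pull, mem_pull, Finset.mem_range]
    constructor
    · rintro ⟨h2, h3⟩
      exact ⟨h2, (hnb x j h2).1 h3⟩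
    · rintro ⟨h2, h3⟩
      exact ⟨h2, (hnb x j h2).2 h3⟩
  rw [h1, gen_pull nb (pnb (l n)) lam (Finset.range (l n)) (ph n y)
    (fun i _ j _ h => by
      unfold ph at h
      injection h)
    (fun j hj => by
      rw [hpull]
      ext i
      rw [mem_pull, Finset.mem_range, mem_pnb']
      unfold ph
      rw [p_mem_p]
      rw [Finset.mem_range] at hj
      omega)]
  rw [← pre_eq]
  congr 2
  have hT : Vx.t n (k n) y ∉ (Finset.range (l n)).image (ph n y) := by
    rw [Finset.mem_image]
    rintro ⟨j, _, h⟩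
    unfold ph at h
    cases h
  have hH : Vx.h (n + 1) y 0 ∉ (Finset.range (l n)).image (ph n y) := by
    rw [Finset.mem_image]
    rintro ⟨j, _, h⟩
    unfold ph at h
    cases h
  have hg : ∀ x ∈ A.filter (fun x => x ∉ (Finset.range (l n)).image (ph n y)),
      ∑ i ∈ pull (Finset.range (l n)) (ph n y) (nb x),
        (f (insert i (pre l n y A)) - f (pre l n y A)) =
      (if x = Vx.t n (k n) y then f (insert 0 (pre l n y A)) - f (pre l n y A) else 0) +
        (if x = Vx.h (n + 1) y 0 then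
          f (insert (l n - 1) (pre l n y A)) - f (pre l n y A) else 0) := by
    intro x hx
    have hxi := (Finset.mem_filter.1 hx).2
    rw [hpull]
    have key : ∀ j, j ∈ pull (Finset.range (l n)) (ph n y) (nbx m k l x) ↔
        (x = Vx.t n (k n) y ∧ j = 0) ∨ (x = Vx.h (n + 1) y 0 ∧ j = l n - 1) := by
      intro j
      rw [mem_pull, Finset.mem_range]
      unfold ph
      rcases x with ⟨n', y', i'⟩ | ⟨n', j', y'⟩ | ⟨n', j', y'⟩
      · rw [p_mem_h m k l hm]
        simp only [reduceCtorEq, false_and, false_or, Vx.h.injEq]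
        omega
      · rw [p_mem_t]
        simp only [reduceCtorEq, false_and, or_false, Vx.t.injEq]
        constructor
        · rintro ⟨h2, rfl, rfl, rfl, rfl⟩
          exact ⟨⟨rfl, rfl, rfl⟩, rfl⟩
        · rintro ⟨⟨rfl, rfl, rfl⟩, rfl⟩
          exact ⟨by omega, rfl, rfl, rfl, rfl⟩
      · rw [p_mem_p]
        simp only [reduceCtorEq, false_and, or_false, iff_false]
        rintro ⟨h2, h3, rfl, rfl, h4⟩
        exact hxi (Finset.mem_image.2 ⟨j', Finset.mem_range.2 h3, rfl⟩)
    by_cases h2 : x = Vx.t n (k n) y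
    · have h3 : pull (Finset.range (l n)) (ph n y) (nbx m k l x) = {0} := by
        ext j
        rw [key, Finset.mem_singleton]
        constructor
        · rintro (⟨_, h⟩ | ⟨h, _⟩)
          · exact h
          · rw [h2] at h; cases h
        · intro h
          exact Or.inl ⟨h2, h⟩
      rw [h3, Finset.sum_singleton, if_pos h2, if_neg (by rw [h2]; simp), add_zero]
    · by_cases h4 : x = Vx.h (n + 1) y 0
      · have h3 : pull (Finset.range (l n)) (ph n y) (nbx m k l x) = {l n - 1} := by
          ext j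
          rw [key, Finset.mem_singleton]
          constructor
          · rintro (⟨h, _⟩ | ⟨_, h⟩)
            · exact absurd h h2
            · exact h
          · intro h
            exact Or.inr ⟨h4, h⟩
        rw [h3, Finset.sum_singleton, if_neg h2, if_pos h4, zero_add]
      · have h3 : pull (Finset.range (l n)) (ph n y) (nbx m k l x) = ∅ := by
          rw [Finset.eq_empty_iff_forall_notMem]
          intro j hj
          rw [key] at hj
          tauto
        rw [h3, Finset.sum_empty, if_neg h2, if_neg h4, add_zero]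
  rw [Finset.sum_congr rfl hg, Finset.sum_add_distrib, Finset.sum_ite_eq', Finset.sum_ite_eq']
  congr 1
  · refine if_congr ?_ rfl rfl
    rw [Finset.mem_filter]
    exact ⟨fun h => h.1, fun h => ⟨h, hT⟩⟩
  · refine if_congr ?_ rfl rfl
    rw [Finset.mem_filter]
    exact ⟨fun h => h.1, fun h => ⟨h, hH⟩⟩

theorem pb (hP : St_PATH) : St_PB := by
  intro m k l hm hl lam h0 h1 n y A
  obtain ⟨hO, hO1, hO2, hoo, _, _, _, hrefl⟩ := hP lam h0 h1 (l n) (hl n)
  have hln := hl n
  set L := l n with hL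
  set O := pO L lam with hOdef
  have hsub : pre l n y A ⊆ Finset.range L := pre_sub l n y A
  -- reflection
  set ρ : ℕ → ℕ := fun j => L - 1 - j with hρ
  have himg : ∀ B : Finset ℕ, B.image ρ ⊆ Finset.range L := by
    intro B i hi
    obtain ⟨j, _, rfl⟩ := Finset.mem_image.1 hi
    rw [Finset.mem_range]
    simp only [hρ]
    omega
  have hinc : ∀ (B : Finset ℕ) (i : ℕ), B ⊆ Finset.range L → i < L →
      0 ≤ O (insert i B) - O B ∧ O (insert i B) - O B ≤ O {i} := by
    intro B i hB hi
    have hi' : ({i} : Finset ℕ) ⊆ Finset.range L := by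
      rw [Finset.singleton_subset_iff, Finset.mem_range]; exact hi
    have h2 := hO.subadd {i} B hi' hB
    have h3 := hO.mono B (insert i B) (Finset.subset_insert _ _)
      (Finset.insert_subset (Finset.mem_range.2 hi) hB)
    rw [← Finset.insert_eq] at h2
    constructor <;> linarith
  have h02 : O {0} ≤ 2 := by
    have := hO1 0 (by omega)
    simpa using this
  have hooL : O {L - 1} = oo L lam := rfl
  have hmem0 : (0 ∈ pre l n y A) ↔ Vx.p n 0 y ∈ A := by
    rw [mem_pre]
    exact ⟨fun h => h.2, fun h => ⟨by omega, h⟩⟩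
  have hmemL : (L - 1 ∈ pre l n y A) ↔ Vx.p n (L - 1) y ∈ A := by
    rw [mem_pre]
    exact ⟨fun h => h.2, fun h => ⟨by omega, h⟩⟩
  have hins0 : (insert 0 (pre l n y A)).image ρ = insert (L - 1) ((pre l n y A).image ρ) := by
    rw [Finset.image_insert]
    simp only [hρ, Nat.sub_zero]
  have hinsL : (insert (L - 1) (pre l n y A)).image ρ = insert 0 ((pre l n y A).image ρ) := by
    rw [Finset.image_insert]
    simp only [hρ, Nat.sub_self]
  -- the two generators
  have hg1 : ∀ nb : Vx → Finset Vx,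
      (∀ x j, j < l n → (Vx.p n j y ∈ nb x ↔ Vx.p n j y ∈ nbx m k l x)) →
      gen nb lam (O1 l lam n y) A = -(if Vx.p n 0 y ∈ A then 1 else 0) +
      lam * ((if Vx.t n (k n) y ∈ A then O (insert 0 (pre l n y A)) - O (pre l n y A) else 0) +
        (if Vx.h (n + 1) y 0 ∈ A then
          O (insert (L - 1) (pre l n y A)) - O (pre l n y A) else 0)) := by
    intro nb hnb
    have h2 := gen_pre m k l hm hl lam n y nb hnb O A
    rw [hO.green _ hsub, if_congr hmem0 rfl rfl] at h2
    exact h2
  have hg2 : ∀ nb : Vx → Finset Vx,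
      (∀ x j, j < l n → (Vx.p n j y ∈ nb x ↔ Vx.p n j y ∈ nbx m k l x)) →
      gen nb lam (O2 l lam n y) A = -(if Vx.p n (L - 1) y ∈ A then 1 else 0) +
      lam * ((if Vx.t n (k n) y ∈ A then O (insert (L - 1) ((pre l n y A).image ρ)) -
          O ((pre l n y A).image ρ) else 0) +
        (if Vx.h (n + 1) y 0 ∈ A then
          O (insert 0 ((pre l n y A).image ρ)) - O ((pre l n y A).image ρ) else 0)) := by
    intro nb hnb
    have h2 := gen_pre m k l hm hl lam n y nb hnb (fun B => O (B.image ρ)) A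
    have h3 : gen (pnb (l n)) lam (fun B => O (B.image ρ)) (pre l n y A) =
        -(if Vx.p n (L - 1) y ∈ A then 1 else 0) := by
      have h4 := hrefl _ hsub
      rw [if_congr hmemL rfl rfl] at h4
      exact h4
    beta_reduce at h2
    rw [hins0] at h2
    rw [show insert (l n - 1) (pre l n y A) = insert (L - 1) (pre l n y A) from rfl, hinsL] at h2
    exact h2.trans (by rw [h3])
  have hid : ∀ x j, j < l n → (Vx.p n j y ∈ nbx m k l x ↔ Vx.p n j y ∈ nbx m k l x) :=
    fun _ _ _ => Iff.rfl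
  have ha := hinc _ 0 hsub (by omega)
  have hb := hinc _ (L - 1) hsub (by omega)
  have hc := hinc _ 0 (himg (pre l n y A)) (by omega)
  have hd := hinc _ (L - 1) (himg (pre l n y A)) (by omega)
  rw [hooL] at hb hd
  refine ⟨⟨hO.nonneg _ hsub, hO2 _ hsub, hO.nonneg _ (himg _), hO2 _ (himg _)⟩, ?_, ?_, ?_⟩
  · rw [hg1 _ hid]
    by_cases h2 : Vx.t n (k n) y ∈ A <;> by_cases h3 : Vx.h (n + 1) y 0 ∈ A <;>
      simp only [h2, h3, if_true, if_false] <;> nlinarith
  · rw [hg2 _ hid]
    by_cases h2 : Vx.t n (k n) y ∈ A <;> by_cases h3 : Vx.h (n + 1) y 0 ∈ A <;>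
      simp only [h2, h3, if_true, if_false] <;> nlinarith
  · intro W0 hW0
    have hrest : ∀ x j, j < l n →
        (Vx.p n j y ∈ rest (nbx m k l) W0 x ↔ Vx.p n j y ∈ nbx m k l x) := by
      intro x j hj
      unfold rest
      rw [Finset.mem_inter]
      exact ⟨fun h => h.1, fun h => ⟨h, hW0 j hj⟩⟩
    rw [hg1 _ hrest, hg2 _ hrest]
    constructor
    · by_cases h2 : Vx.t n (k n) y ∈ A <;> by_cases h3 : Vx.h (n + 1) y 0 ∈ A <;>
        simp only [h2, h3, if_true, if_false] <;> nlinarith
    · by_cases h2 : Vx.t n (k n) y ∈ A <;> by_cases h3 : Vx.h (n + 1) y 0 ∈ A <;>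
        simp only [h2, h3, if_true, if_false] <;> nlinarith

end Pool.Agent.W346.CP
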