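import Pool.Agent.W346.CP.Pull

set_option autoImplicit false

namespace Pool.Agent.W346.CP

open Pool.Agent.W845.CP

lemma mem_pnb {l j i : ℕ} : i ∈ pnb l j ↔ (j ≠ 0 ∧ i = j - 1) ∨ (j + 1 < l ∧ i = j + 1) := by
  unfold pnb
  rw [Finset.mem_union]
  constructor
  · rintro (h | h)
    · split_ifs at h with h1
      · simp at h
      · exact Or.inl ⟨h1, by simpa using h⟩
    · split_ifs at h with h1
      · exact Or.inr ⟨h1, by simpa using h⟩
      · simp at h
  · rintro (⟨h1, h2⟩ | ⟨h1, h2⟩)
    · left
      rw [if_neg h1]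
      simpa using h2
    · right
      rw [if_pos h1]
      simpa using h2

lemma pnb_closed (l : ℕ) : ∀ x ∈ Finset.range l, pnb l x ⊆ Finset.range l := by
  intro x hx y hy
  rw [Finset.mem_range] at hx ⊢
  rw [mem_pnb] at hy
  omega

lemma green_exists (hG : St_GREEN) (l : ℕ) (lam : ℝ) (h0 : 0 ≤ lam) :
    IsPathGreen l lam (pO l lam) := by
  unfold pO
  apply Classical.epsilon_spec
  obtain ⟨O, h1, h2, h3, h4, h5⟩ := hG ℕ (pnb l) lam h0 (Finset.range l) (pnb_closed l)
    (fun A => if 0 ∈ A then 1 else 0) (by simp) (fun A _ => by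
      split_ifs <;> norm_num) (fun A B hAB _ => by
      split_ifs with h1 h2 h2
      · exact le_rfl
      · exact absurd (hAB h1) h2
      · norm_num
      · exact le_rfl) (fun A B _ _ => by
      by_cases hA : 0 ∈ A <;> by_cases hB : 0 ∈ B <;> simp [Finset.mem_union, hA, hB])
  exact ⟨O, h1, h2, h3, h4, h5⟩

/-- weights -/
noncomputable def w (j : ℕ) : ℝ := 2 * (1 / 15 : ℝ) ^ j

lemma w_nonneg (j : ℕ) : 0 ≤ w j := by unfold w; positivity

lemma w_succ (j : ℕ) : w (j + 1) = w j / 15 := by unfold w; rw [pow_succ]; ring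

lemma sum_pnb_le (l j : ℕ) : ∑ y ∈ pnb l j, w y ≤ (if j = 0 then 0 else w (j - 1)) + w (j + 1) := by
  rcases Nat.eq_zero_or_pos j with rfl | hj
  · rw [if_pos rfl, zero_add]
    have h1 : pnb l 0 ⊆ {1} := by
      intro y hy
      rw [mem_pnb] at hy
      rw [Finset.mem_singleton]
      omega
    refine (Finset.sum_le_sum_of_subset_of_nonneg h1 fun y _ _ => w_nonneg y).trans ?_
    rw [Finset.sum_singleton]
  · rw [if_neg hj.ne']
    have h1 : pnb l j ⊆ {j - 1, j + 1} := by
      intro y hy
      rw [mem_pnb] at hy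
      rw [Finset.mem_insert, Finset.mem_singleton]
      omega
    refine (Finset.sum_le_sum_of_subset_of_nonneg h1 fun y _ _ => w_nonneg y).trans ?_
    rw [Finset.sum_pair (by omega)]

lemma drift_le (l j : ℕ) (lam : ℝ) (h0 : 0 < lam) (h1 : lam ≤ 1 / 16) :
    -(w j) + lam * ∑ y ∈ pnb l j, w y ≤ -(if j = 0 then 1 else 0) := by
  have h2 := mul_le_mul_of_nonneg_left (sum_pnb_le l j) h0.le
  rcases Nat.eq_zero_or_pos j with rfl | hj
  · rw [if_pos rfl, zero_add, w_succ] at h2
    rw [if_pos rfl]
    have h3 : w 0 = 2 := by unfold w; norm_num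
    rw [h3] at h2 ⊢
    nlinarith
  · obtain ⟨i, rfl⟩ : ∃ i, j = i + 1 := ⟨j - 1, by omega⟩
    rw [if_neg (by omega), Nat.add_sub_cancel, w_succ (i + 1), w_succ i] at h2
    rw [if_neg (by omega), w_succ i]
    have h3 := w_nonneg i
    nlinarith

lemma pO_le_w (l : ℕ) (lam : ℝ) (h0 : 0 < lam) (h1 : lam ≤ 1 / 16)
    (hO : IsPathGreen l lam (pO l lam)) (A : Finset ℕ) (hA : A ⊆ Finset.range l) :
    pO l lam A ≤ ∑ j ∈ A, w j := by
  have h2 := mp ℕ (pnb l) lam h0.le (Finset.range l) (pnb_closed l)
    (fun B => ∑ j ∈ B, w j - pO l lam B) (by simp [hO.empty]) (fun B hB _ => Or.inr (by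
      rw [gen_sub (pnb l) lam (fun B => ∑ j ∈ B, w j), hO.green B hB]
      have h3 := gen_additive_le (pnb l) lam h0.le w w_nonneg B
      have h4 : ∑ x ∈ B, (-(w x) + lam * ∑ y ∈ pnb l x, w y) ≤
          ∑ x ∈ B, -(if x = 0 then (1 : ℝ) else 0) :=
        Finset.sum_le_sum fun x _ => drift_le l x lam h0 h1
      rw [Finset.sum_neg_distrib, Finset.sum_ite_eq'] at h4
      linarith)) A hA
  beta_reduce at h2
  linarith

lemma sum_w_le (l : ℕ) (A : Finset ℕ) (hA : A ⊆ Finset.range l) : ∑ j ∈ A, w j ≤ 15 / 7 := by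
  refine (Finset.sum_le_sum_of_subset_of_nonneg hA fun y _ _ => w_nonneg y).trans ?_
  have h1 : ∀ l : ℕ, ∑ j ∈ Finset.range l, w j = 15 / 7 - w l * (15 / 14) := by
    intro l
    induction l with
    | zero => unfold w; norm_num
    | succ l ih =>
      rw [Finset.sum_range_succ, ih, w_succ]
      ring
  rw [h1]
  have := w_nonneg l
  linarith

lemma oo_one (lam : ℝ) (hO : IsPathGreen 1 lam (pO 1 lam)) : oo 1 lam = 1 := by
  have h1 := hO.green {0} (by simp)
  have h2 : pnb 1 0 = ∅ := by
    unfold pnb
    simp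
  unfold gen at h1
  rw [Finset.sum_singleton, Finset.sum_singleton, h2, Finset.sum_empty, Finset.erase_singleton,
    hO.empty] at h1
  simp only [Finset.mem_singleton, if_true] at h1
  unfold oo
  have h3 : pO 1 lam {1 - 1} = pO 1 lam {0} := rfl
  rw [h3]
  linarith

lemma ratio (l : ℕ) (hl : 1 ≤ l) (lam : ℝ) (h0 : 0 < lam)
    (hO : IsPathGreen l lam (pO l lam)) (hO' : IsPathGreen (l + 1) lam (pO (l + 1) lam)) :
    lam * oo l lam ≤ (1 + lam) * oo (l + 1) lam := by
  set O := pO l lam with hOd
  set O' := pO (l + 1) lam with hOd'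
  set sh : Finset ℕ → Finset ℕ := pull (Finset.range l) (fun j => j + 1) with hsh
  have hclosed := pnb_closed (l + 1)
  have hgenG : ∀ A, A ⊆ Finset.range (l + 1) → -(if 1 ∈ A then (1 : ℝ) else 0) ≤
      gen (pnb (l + 1)) lam (fun B => O (sh B)) A := by
    intro A hA
    rw [hsh, gen_pull (pnb (l + 1)) (pnb l) lam (Finset.range l) (fun j => j + 1)
      (fun i _ j _ h => by simpa using h) (fun j hj => by
        ext i
        rw [mem_pull, mem_pnb, mem_pnb, Finset.mem_range]
        rw [Finset.mem_range] at hj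
        omega) O A]
    have hsub : pull (Finset.range l) (fun j => j + 1) A ⊆ Finset.range l :=
      Finset.filter_subset _ _
    rw [hO.green _ hsub]
    have h1 : (0 ∈ pull (Finset.range l) (fun j => j + 1) A) ↔ 1 ∈ A := by
      rw [mem_pull, Finset.mem_range]
      simp only [zero_add]
      exact ⟨fun h => h.2, fun h => ⟨hl, h⟩⟩
    have h2 : (if 0 ∈ pull (Finset.range l) (fun j => j + 1) A then (1 : ℝ) else 0) =
        if 1 ∈ A then 1 else 0 := if_congr h1 rfl rfl
    rw [h2]
    have h3 : 0 ≤ lam * ∑ x ∈ A.filter (fun x => x ∉ (Finset.range l).image (fun j => j + 1)),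
        ∑ i ∈ pull (Finset.range l) (fun j => j + 1) (pnb (l + 1) x),
        (O (insert i (pull (Finset.range l) (fun j => j + 1) A)) -
          O (pull (Finset.range l) (fun j => j + 1) A)) := by
      refine mul_nonneg h0.le (Finset.sum_nonneg fun x _ => Finset.sum_nonneg fun i hi => ?_)
      have h4 := hO.mono _ (insert i (pull (Finset.range l) (fun j => j + 1) A))
        (Finset.subset_insert _ _) (Finset.insert_subset (mem_pull.1 hi).1 hsub)
      linarith
    linarith
  have hgenI : ∀ A, A ⊆ Finset.range (l + 1) →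
      (if 0 ∈ A then (-1 : ℝ) else if 1 ∈ A then lam else 0) ≤
      gen (pnb (l + 1)) lam (fun B => if 0 ∈ B then (1 : ℝ) else 0) A := by
    intro A hA
    unfold gen
    by_cases h1 : 0 ∈ A
    · rw [if_pos h1]
      have h2 : ∑ x ∈ A, ((if 0 ∈ A.erase x then (1 : ℝ) else 0) - if 0 ∈ A then 1 else 0) =
          ∑ x ∈ A, -(if x = 0 then (1 : ℝ) else 0) := by
        refine Finset.sum_congr rfl fun x _ => ?_
        by_cases hx : x = 0
        · simp [hx, h1]
        · simp [h1, Ne.symm hx, hx]
      have h3 : ∑ x ∈ A, ∑ y ∈ pnb (l + 1) x, ((if 0 ∈ insert y A then (1 : ℝ) else 0) -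
          if 0 ∈ A then 1 else 0) = 0 := by
        refine Finset.sum_eq_zero fun x _ => Finset.sum_eq_zero fun y _ => ?_
        rw [if_pos (Finset.mem_insert_of_mem h1), if_pos h1, sub_self]
      rw [h2, h3, Finset.sum_neg_distrib, Finset.sum_ite_eq', if_pos h1]
      simp
    · rw [if_neg h1]
      have h2 : ∑ x ∈ A, ((if 0 ∈ A.erase x then (1 : ℝ) else 0) - if 0 ∈ A then 1 else 0) =
          0 := by
        refine Finset.sum_eq_zero fun x _ => ?_
        rw [if_neg (fun h => h1 (Finset.mem_of_mem_erase h)), if_neg h1, sub_self]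
      have h3 : ∀ x ∈ A, ∀ y ∈ pnb (l + 1) x, (0 : ℝ) ≤ (if 0 ∈ insert y A then (1 : ℝ) else 0) -
          if 0 ∈ A then 1 else 0 := by
        intro x _ y _
        rw [if_neg h1]
        split_ifs <;> norm_num
      rw [h2, zero_add]
      by_cases h4 : 1 ∈ A
      · rw [if_pos h4]
        have h5 : (1 : ℝ) ≤ ∑ x ∈ A, ∑ y ∈ pnb (l + 1) x,
            ((if 0 ∈ insert y A then (1 : ℝ) else 0) - if 0 ∈ A then 1 else 0) := by
          refine le_trans ?_ (Finset.single_le_sum
            (f := fun x => ∑ y ∈ pnb (l + 1) x, ((if 0 ∈ insert y A then (1 : ℝ) else 0) -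
              if 0 ∈ A then 1 else 0)) (fun x hx => Finset.sum_nonneg fun y hy => h3 x hx y hy) h4)
          refine le_trans ?_ (Finset.single_le_sum
            (f := fun y => ((if 0 ∈ insert y A then (1 : ℝ) else 0) -
              if 0 ∈ A then 1 else 0)) (fun y hy => h3 1 h4 y hy)
              (show 0 ∈ pnb (l + 1) 1 by rw [mem_pnb]; omega))
          simp [h1]
        have := mul_le_mul_of_nonneg_left h5 h0.le
        linarith
      · rw [if_neg h4]
        exact mul_nonneg h0.le (Finset.sum_nonneg fun x hx => Finset.sum_nonneg fun y hy =>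
          h3 x hx y hy)
  have hmp := mp ℕ (pnb (l + 1)) lam h0.le (Finset.range (l + 1)) hclosed
    (fun B => ((1 + lam) * O' B - if 0 ∈ B then (1 : ℝ) else 0) - lam * O (sh B)) (by
      have : sh ∅ = ∅ := by
        rw [hsh]
        unfold pull
        simp
      simp [hO'.empty, hO.empty, this]) (fun B hB _ => Or.inr (by
      rw [gen_sub (pnb (l + 1)) lam (fun B => (1 + lam) * O' B - if 0 ∈ B then (1 : ℝ) else 0)
        (fun B => lam * O (sh B)), gen_sub (pnb (l + 1)) lam (fun B => (1 + lam) * O' B)
        (fun B => if 0 ∈ B then (1 : ℝ) else 0), gen_smul, gen_smul, hO'.green B hB]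
      have h1 := hgenG B hB
      have h2 := hgenI B hB
      have h3 := mul_le_mul_of_nonneg_left h1 h0.le
      by_cases h4 : 0 ∈ B <;> by_cases h5 : 1 ∈ B <;>
        simp only [h4, h5, if_true, if_false] at h2 h3 ⊢ <;> linarith)) {l} (by
      rw [Finset.singleton_subset_iff, Finset.mem_range]; omega)
  have h6 : sh {l} = {l - 1} := by
    rw [hsh]
    ext i
    rw [mem_pull, Finset.mem_range, Finset.mem_singleton, Finset.mem_singleton]
    omega
  have h7 : (0 : ℕ) ∉ ({l} : Finset ℕ) := by
    rw [Finset.mem_singleton]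
    omega
  beta_reduce at hmp
  rw [h6, if_neg h7] at hmp
  unfold oo
  have h8 : l + 1 - 1 = l := rfl
  rw [h8]
  linarith

theorem path (hG : St_GREEN) : St_PATH := by
  intro lam h0 h1 l hl
  have hO := fun l => green_exists hG l lam h0.le
  have hpos : ∀ l, 1 ≤ l → 0 < oo l lam := by
    intro l hl
    induction l, hl using Nat.le_induction with
    | base =>
      rw [oo_one lam (hO 1)]
      exact one_pos
    | succ l hl ih =>
      have := ratio l hl lam h0 (hO l) (hO (l + 1))
      have h2 : 0 < lam * oo l lam := mul_pos h0 ih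
      have h3 : 0 < (1 + lam) * oo (l + 1) lam := h2.trans_le this
      exact (pos_iff_pos_of_mul_pos h3).1 (by linarith)
  refine ⟨hO l, ?_, ?_, hpos l hl, oo_one lam (hO 1), ?_, ?_, ?_⟩
  · intro j hj
    have := pO_le_w l lam h0 h1 (hO l) {j} (by
      rw [Finset.singleton_subset_iff, Finset.mem_range]; exact hj)
    rw [Finset.sum_singleton] at this
    exact this
  · intro A hA
    exact (pO_le_w l lam h0 h1 (hO l) A hA).trans (sum_w_le l A hA)
  · have := ratio l hl lam h0 (hO l) (hO (l + 1))
    rw [div_mul_eq_mul_div, div_le_iff₀ (by linarith)]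
    linarith
  · intro lam' h2 h3
    have h0' : 0 < lam' := h0.trans_le h2
    have hO' := green_exists hG l lam' h0'.le
    have hmp := mp ℕ (pnb l) lam' h0'.le (Finset.range l) (pnb_closed l)
      (fun B => pO l lam' B - pO l lam B) (by simp [hO'.empty, (hO l).empty]) (fun B hB _ =>
      Or.inr (by
        rw [gen_sub (pnb l) lam' (pO l lam') (pO l lam), hO'.green B hB]
        have h4 : gen (pnb l) lam' (pO l lam) B = gen (pnb l) lam (pO l lam) B +
            (lam' - lam) * ∑ x ∈ B, ∑ y ∈ pnb l x, (pO l lam (insert y B) - pO l lam B) := by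
          unfold gen
          ring
        rw [h4, (hO l).green B hB]
        have h5 : 0 ≤ (lam' - lam) * ∑ x ∈ B, ∑ y ∈ pnb l x,
            (pO l lam (insert y B) - pO l lam B) := by
          refine mul_nonneg (by linarith) (Finset.sum_nonneg fun x hx => Finset.sum_nonneg
            fun y hy => ?_)
          have := (hO l).mono B (insert y B) (Finset.subset_insert _ _)
            (Finset.insert_subset (pnb_closed l x (hB hx) hy) hB)
          linarith
        linarith)) {l - 1} (by
        rw [Finset.singleton_subset_iff, Finset.mem_range]; omega)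
    beta_reduce at hmp
    unfold oo
    linarith
  · intro A hA
    have himg : ∀ B, B ⊆ Finset.range l → B.image (fun j => l - 1 - j) =
        pull (Finset.range l) (fun j => l - 1 - j) B := by
      intro B hB
      ext i
      rw [mem_pull, Finset.mem_image, Finset.mem_range]
      constructor
      · rintro ⟨j, hj, rfl⟩
        have hjl := Finset.mem_range.1 (hB hj)
        refine ⟨by omega, ?_⟩
        have : l - 1 - (l - 1 - j) = j := by omega
        rw [this]
        exact hj
      · rintro ⟨hi, hi'⟩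
        exact ⟨l - 1 - i, hi', by omega⟩
    rw [gen_congr (pnb l) lam (Finset.range l) (pnb_closed l)
      (fun B => pO l lam (B.image (fun j => l - 1 - j)))
      (fun B => pO l lam (pull (Finset.range l) (fun j => l - 1 - j) B))
      (fun B hB => by rw [himg B hB]) A hA,
      gen_pull (pnb l) (pnb l) lam (Finset.range l) (fun j => l - 1 - j)
        (fun i hi j hj h => by
          rw [Finset.mem_range] at hi hj
          omega)
        (fun j hj => by
          ext i
          rw [mem_pull, mem_pnb, mem_pnb, Finset.mem_range]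
          rw [Finset.mem_range] at hj
          omega)]
    have h2 : A.filter (fun x => x ∉ (Finset.range l).image (fun j => l - 1 - j)) = ∅ := by
      rw [Finset.filter_eq_empty_iff]
      intro x hx
      rw [not_not, Finset.mem_image]
      have := Finset.mem_range.1 (hA hx)
      exact ⟨l - 1 - x, Finset.mem_range.2 (by omega), by omega⟩
    rw [h2, Finset.sum_empty, mul_zero, add_zero, (hO l).green _
      (show pull (Finset.range l) (fun j => l - 1 - j) A ⊆ Finset.range l from
        Finset.filter_subset _ _)]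
    congr 1
    refine if_congr ?_ rfl rfl
    rw [mem_pull, Finset.mem_range]
    constructor
    · rintro ⟨-, h⟩
      simpa using h
    · intro h
      exact ⟨by omega, by simpa using h⟩

end Pool.Agent.W346.CP
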