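import Pool.Agent.W845.CP.Base2

set_option autoImplicit false

namespace Pool.Agent.W346.CP

open Pool.Agent.W845.CP

variable {V V' : Type} [DecidableEq V] [DecidableEq V']

/-- the pull back of a set -/
def pull (R' : Finset V') (φ : V' → V) (A : Finset V) : Finset V' := R'.filter fun j => φ j ∈ A

lemma mem_pull {R' : Finset V'} {φ : V' → V} {A : Finset V} {j : V'} :
    j ∈ pull R' φ A ↔ j ∈ R' ∧ φ j ∈ A := by
  unfold pull
  rw [Finset.mem_filter]

lemma pull_erase (R' : Finset V') (φ : V' → V)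
    (hφ : ∀ i ∈ R', ∀ j ∈ R', φ i = φ j → i = j) (A : Finset V) (j : V') (hj : j ∈ R') :
    pull R' φ (A.erase (φ j)) = (pull R' φ A).erase j := by
  ext i
  rw [mem_pull, Finset.mem_erase, Finset.mem_erase, mem_pull]
  constructor
  · rintro ⟨h1, h2, h3⟩
    exact ⟨fun h => h2 (by rw [h]), h1, h3⟩
  · rintro ⟨h1, h2, h3⟩
    exact ⟨h2, fun h => h1 (hφ i h2 j hj h), h3⟩

lemma pull_erase_of_not (R' : Finset V') (φ : V' → V) (A : Finset V) (x : V)
    (hx : x ∉ R'.image φ) : pull R' φ (A.erase x) = pull R' φ A := by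
  ext i
  rw [mem_pull, Finset.mem_erase, mem_pull]
  constructor
  · rintro ⟨h1, h2, h3⟩
    exact ⟨h1, h3⟩
  · rintro ⟨h1, h2⟩
    exact ⟨h1, fun h => hx (h ▸ Finset.mem_image_of_mem φ h1), h2⟩

lemma pull_insert (R' : Finset V') (φ : V' → V)
    (hφ : ∀ i ∈ R', ∀ j ∈ R', φ i = φ j → i = j) (A : Finset V) (j : V') (hj : j ∈ R') :
    pull R' φ (insert (φ j) A) = insert j (pull R' φ A) := by
  ext i
  rw [mem_pull, Finset.mem_insert, Finset.mem_insert, mem_pull]
  constructor
  · rintro ⟨h1, h2 | h2⟩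
    · exact Or.inl (hφ i h1 j hj h2)
    · exact Or.inr ⟨h1, h2⟩
  · rintro (rfl | ⟨h1, h2⟩)
    · exact ⟨hj, Or.inl rfl⟩
    · exact ⟨h1, Or.inr h2⟩

lemma pull_insert_of_not (R' : Finset V') (φ : V' → V) (A : Finset V) (x : V)
    (hx : x ∉ R'.image φ) : pull R' φ (insert x A) = pull R' φ A := by
  ext i
  rw [mem_pull, Finset.mem_insert, mem_pull]
  constructor
  · rintro ⟨h1, h2 | h2⟩
    · exact absurd (h2 ▸ Finset.mem_image_of_mem φ h1) hx
    · exact ⟨h1, h2⟩
  · rintro ⟨h1, h2⟩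
    exact ⟨h1, Or.inr h2⟩

/-- the generator applied to the pull back of a functional -/
theorem gen_pull (nb : V → Finset V) (nb' : V' → Finset V') (lam : ℝ) (R' : Finset V')
    (φ : V' → V) (hφ : ∀ i ∈ R', ∀ j ∈ R', φ i = φ j → i = j)
    (hnb : ∀ j ∈ R', pull R' φ (nb (φ j)) = nb' j) (f : Finset V' → ℝ) (A : Finset V) :
    gen nb lam (fun B => f (pull R' φ B)) A = gen nb' lam f (pull R' φ A) +
      lam * ∑ x ∈ A.filter (fun x => x ∉ R'.image φ), ∑ i ∈ pull R' φ (nb x),
        (f (insert i (pull R' φ A)) - f (pull R' φ A)) := by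
  classical
  have himg : ∀ g : V → ℝ, ∑ x ∈ A.filter (fun x => x ∈ R'.image φ), g x =
      ∑ j ∈ pull R' φ A, g (φ j) := by
    intro g
    symm
    refine Finset.sum_bij (fun j _ => φ j) ?_ ?_ ?_ ?_
    · intro j hj
      rw [mem_pull] at hj
      rw [Finset.mem_filter]
      exact ⟨hj.2, Finset.mem_image_of_mem φ hj.1⟩
    · intro i hi j hj h
      rw [mem_pull] at hi hj
      exact hφ i hi.1 j hj.1 h
    · intro x hx
      rw [Finset.mem_filter, Finset.mem_image] at hx
      obtain ⟨hx1, j, hj, rfl⟩ := hx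
      exact ⟨j, mem_pull.2 ⟨hj, hx1⟩, rfl⟩
    · intro j _
      rfl
  have hin : ∀ x : V, ∑ y ∈ nb x, (f (pull R' φ (insert y A)) - f (pull R' φ A)) =
      ∑ i ∈ pull R' φ (nb x), (f (insert i (pull R' φ A)) - f (pull R' φ A)) := by
    intro x
    rw [← Finset.sum_filter_add_sum_filter_not (nb x) (fun y => y ∈ R'.image φ)]
    have h0 : ∑ y ∈ (nb x).filter (fun y => ¬ y ∈ R'.image φ),
        (f (pull R' φ (insert y A)) - f (pull R' φ A)) = 0 := by
      refine Finset.sum_eq_zero fun y hy => ?_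
      rw [pull_insert_of_not R' φ A y (Finset.mem_filter.1 hy).2, sub_self]
    rw [h0, add_zero]
    symm
    refine Finset.sum_bij (fun j _ => φ j) ?_ ?_ ?_ ?_
    · intro j hj
      rw [mem_pull] at hj
      rw [Finset.mem_filter]
      exact ⟨hj.2, Finset.mem_image_of_mem φ hj.1⟩
    · intro i hi j hj h
      rw [mem_pull] at hi hj
      exact hφ i hi.1 j hj.1 h
    · intro y hy
      rw [Finset.mem_filter, Finset.mem_image] at hy
      obtain ⟨hy1, j, hj, rfl⟩ := hy
      exact ⟨j, mem_pull.2 ⟨hj, hy1⟩, rfl⟩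
    · intro j hj
      rw [mem_pull] at hj
      rw [pull_insert R' φ hφ A j hj.1]
  unfold gen
  rw [← Finset.sum_filter_add_sum_filter_not A (fun x => x ∈ R'.image φ)
    (fun x => f (pull R' φ (A.erase x)) - f (pull R' φ A)),
    ← Finset.sum_filter_add_sum_filter_not A (fun x => x ∈ R'.image φ)
    (fun x => ∑ y ∈ nb x, (f (pull R' φ (insert y A)) - f (pull R' φ A)))]
  have h1 : ∑ x ∈ A.filter (fun x => ¬ x ∈ R'.image φ),
      (f (pull R' φ (A.erase x)) - f (pull R' φ A)) = 0 := by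
    refine Finset.sum_eq_zero fun y hy => ?_
    rw [pull_erase_of_not R' φ A y (Finset.mem_filter.1 hy).2, sub_self]
  rw [h1, himg, himg, add_zero, mul_add, ← add_assoc]
  congr 1
  · congr 1
    · refine Finset.sum_congr rfl fun j hj => ?_
      rw [pull_erase R' φ hφ A j (mem_pull.1 hj).1]
    · congr 1
      refine Finset.sum_congr rfl fun j hj => ?_
      rw [hin, hnb j (mem_pull.1 hj).1]
  · congr 1
    exact Finset.sum_congr rfl fun x _ => hin x

/-- functionals which agree on the subsets of a closed region -/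
lemma gen_congr (nb : V → Finset V) (lam : ℝ) (R : Finset V) (hR : ∀ x ∈ R, nb x ⊆ R)
    (f g : Finset V → ℝ) (h : ∀ A, A ⊆ R → f A = g A) (A : Finset V) (hA : A ⊆ R) :
    gen nb lam f A = gen nb lam g A := by
  unfold gen
  congr 1
  · exact Finset.sum_congr rfl fun x _ => by
      rw [h A hA, h _ ((Finset.erase_subset _ _).trans hA)]
  · congr 1
    exact Finset.sum_congr rfl fun x hx => Finset.sum_congr rfl fun y hy => by
      rw [h A hA, h _ (Finset.insert_subset (hR x (hA hx) hy) hA)]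

end Pool.Agent.W346.CP
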